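import Pool.Agent.H65.CRG.TN

/-!
Module G3: the Gamma factors of the dual term, general degree.
-/

set_option autoImplicit false

open Complex

namespace Pool.Agent.H14.CRG

open Pool.Agent.H65.CRG

theorem pf_G3 (h1 : Pool.Agent.H65.CRZ.T_G3) : T_G3 := by
  intro n
  obtain ⟨C, B, hC, hB, h⟩ := h1
  have hM1 : (1 : ℝ) ≤ 1 + C := by linarith
  refine ⟨n * C * (1 + C) ^ n + 1, B * (n + 1), by positivity, by positivity, ?_⟩
  intro α β u hα hβ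
  have h0 := h α β u hα hβ
  set r : ℂ := Gamma (1 - (1 / 2 + α + u * I)) * Gamma (1 - (1 / 2 + β - u * I)) /
      (Gamma (1 / 2 + α + u * I) * Gamma (1 / 2 + β - u * I)) with hr
  have hu : (1 : ℝ) ≤ 1 + |u| := by linarith [abs_nonneg u]
  have hX : (1 : ℝ) ≤ (1 + |u|) ^ B := Real.one_le_rpow hu hB
  have hn0 : 0 ≤ ‖α‖ + ‖β‖ := by positivity
  have hr1 : ‖r‖ ≤ (1 + C) * (1 + |u|) ^ B := by
    have h2 : ‖r‖ ≤ ‖r - 1‖ + 1 := by
      calc ‖r‖ = ‖(r - 1) + 1‖ := by ring_nf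
        _ ≤ ‖r - 1‖ + ‖(1 : ℂ)‖ := norm_add_le _ _
        _ = ‖r - 1‖ + 1 := by rw [norm_one]
    have h3 : C * (‖α‖ + ‖β‖) * (1 + |u|) ^ B ≤ C * 1 * (1 + |u|) ^ B := by
      gcongr
      linarith
    nlinarith
  have hgeom : r ^ n - 1 = (∑ k ∈ Finset.range n, r ^ k) * (r - 1) := (geom_sum_mul r n).symm
  have hM : (1 : ℝ) ≤ (1 + C) * (1 + |u|) ^ B := by nlinarith
  have hsum : ‖∑ k ∈ Finset.range n, r ^ k‖ ≤ n * ((1 + C) * (1 + |u|) ^ B) ^ n := by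
    calc ‖∑ k ∈ Finset.range n, r ^ k‖ ≤ ∑ k ∈ Finset.range n, ‖r ^ k‖ := norm_sum_le _ _
      _ ≤ ∑ k ∈ Finset.range n, ((1 + C) * (1 + |u|) ^ B) ^ n := by
          apply Finset.sum_le_sum
          intro k hk
          rw [norm_pow]
          calc ‖r‖ ^ k ≤ ((1 + C) * (1 + |u|) ^ B) ^ k := by gcongr
            _ ≤ ((1 + C) * (1 + |u|) ^ B) ^ n :=
                pow_le_pow_right₀ hM (Finset.mem_range.1 hk).le
      _ = n * ((1 + C) * (1 + |u|) ^ B) ^ n := by simp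
  have hpow : (1 + |u|) ^ (B * (n + 1)) = ((1 + |u|) ^ B) ^ n * (1 + |u|) ^ B := by
    rw [mul_add, mul_one, Real.rpow_add (by linarith), Real.rpow_mul (by linarith),
      Real.rpow_natCast]
  rw [hgeom, norm_mul]
  calc ‖∑ k ∈ Finset.range n, r ^ k‖ * ‖r - 1‖
      ≤ (n * ((1 + C) * (1 + |u|) ^ B) ^ n) * (C * (‖α‖ + ‖β‖) * (1 + |u|) ^ B) := by
        gcongr
    _ = (n * C * (1 + C) ^ n) * (‖α‖ + ‖β‖) * (1 + |u|) ^ (B * (n + 1)) := by
        rw [hpow, mul_pow]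
        ring
    _ ≤ (n * C * (1 + C) ^ n + 1) * (‖α‖ + ‖β‖) * (1 + |u|) ^ (B * (n + 1)) := by
        gcongr
        linarith

end Pool.Agent.H14.CRG
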