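import Pool.Agent.H68.CRZ.AG
import Pool.Agent.H65.CRG.TL

/-!
Module NG: the number of the zeros on the critical line of `F`, `F = Re G`.
-/

set_option autoImplicit false

open Complex MeasureTheory Set Filter Topology

namespace Pool.Agent.H14.CRG

open Pool.Agent.H65.CRZ Pool.Agent.H65.CRG Pool.Agent.H18.PZ Pool.Agent.H68.CRZ

theorem pf_NG (h1 : Pool.Agent.H65.CRZ.T_AG) (h2 : T_CG) : T_NG := by
  classical
  intro F G b c d hb hcd hF hG hne hline hhor hright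
  have hG1 : Differentiable ℂ (deriv G) := by
    rw [← differentiableOn_univ] at hG ⊢
    exact hG.deriv isOpen_univ
  -- the real functions
  have hlin : ∀ t : ℝ, HasDerivAt (fun t : ℝ => (1 / 2 : ℂ) + t * I) I t := fun t => by
    have h2 : HasDerivAt (fun t : ℝ => (t : ℂ)) 1 t := Complex.ofRealCLM.hasDerivAt
    simpa using (h2.mul_const I).const_add (1 / 2 : ℂ)
  have hw0 : ∀ t : ℝ, HasDerivAt (fun t : ℝ => G (1 / 2 + t * I))
      (I * deriv G (1 / 2 + t * I)) t := fun t =>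
    ((hG _).hasDerivAt.scomp t (hlin t))
  set x : ℝ → ℝ := fun t => (G (1 / 2 + t * I)).re with hx
  set y : ℝ → ℝ := fun t => (G (1 / 2 + t * I)).im with hy
  set x₁ : ℝ → ℝ := fun t => (I * deriv G (1 / 2 + t * I)).re with hx₁
  set y₁ : ℝ → ℝ := fun t => (I * deriv G (1 / 2 + t * I)).im with hy₁
  have dx : ∀ t, HasDerivAt x (x₁ t) t := by
    intro t
    exact Complex.reCLM.hasFDerivAt.comp_hasDerivAt t (hw0 t)
  have dy : ∀ t, HasDerivAt y (y₁ t) t := by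
    intro t
    exact Complex.imCLM.hasFDerivAt.comp_hasDerivAt t (hw0 t)
  have hgc : Continuous fun t : ℝ => I * deriv G (1 / 2 + t * I) :=
    continuous_const.mul (hG1.continuous.comp (by fun_prop))
  have hx1c : Continuous x₁ := Complex.continuous_re.comp hgc
  have hy1c : Continuous y₁ := Complex.continuous_im.comp hgc
  have hxF : ∀ t : ℝ, F (1 / 2 + t * I) = (x t : ℂ) := fun t => by
    apply Complex.ext
    · rw [← (hline t).2]
      simp [hx]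
    · rw [(hline t).1]
      simp
  obtain ⟨s0, hs0⟩ := hne
  have hFU : AnalyticOnNhd ℂ F univ := fun s _ => hF.analyticAt s
  have hGU : AnalyticOnNhd ℂ G univ := fun s _ => hG.analyticAt s
  have hcomp : IsCompact (Icc (1 / 2 : ℝ) b ×ℂ Icc c d) := isCompact_Icc.reProdIm isCompact_Icc
  have hfinF := zeros_finite isPreconnected_univ hFU (mem_univ s0) hs0 hcomp (subset_univ _)
  have hAfin : {ρ : ℂ | F ρ = 0 ∧ ρ.re = 1 / 2 ∧ c ≤ ρ.im ∧ ρ.im ≤ d}.Finite := by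
    refine hfinF.subset ?_
    rintro z ⟨h1, h2, h3, h4⟩
    exact ⟨mem_reProdIm.2 ⟨⟨h2.ge, h2.le.trans hb.le⟩, h3, h4⟩, h1⟩
  have hmap : ∀ t : ℝ, ((1 / 2 : ℂ) + t * I).re = 1 / 2 ∧ ((1 / 2 : ℂ) + t * I).im = t := by
    intro t
    constructor <;> simp
  have hinj : Function.Injective fun t : ℝ => (1 / 2 : ℂ) + t * I := by
    intro s t h
    have := congrArg Complex.im h
    simpa using this
  have hx0 : ∀ t : ℝ, x t = 0 ↔ F (1 / 2 + t * I) = 0 := fun t => by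
    rw [hxF t]
    exact Complex.ofReal_eq_zero.symm
  have htfin : {t ∈ Icc c d | x t = 0}.Finite := by
    refine Set.Finite.of_finite_image (f := fun t : ℝ => (1 / 2 : ℂ) + t * I) ?_ hinj.injOn
    refine hAfin.subset ?_
    rintro _ ⟨t, ⟨ht, hxt⟩, rfl⟩
    exact ⟨(hx0 t).1 hxt, (hmap t).1, (hmap t).2.symm ▸ ht.1, (hmap t).2.symm ▸ ht.2⟩
  -- the argument principle
  have hc2 : ((1 / 2 : ℝ) : ℂ) = 1 / 2 := by push_cast; rfl
  obtain ⟨hfinG, k, hkc, hk, hint⟩ := h1 G (1 / 2) b c d univ hb hcd isOpen_univ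
    isPreconnected_univ (fun s _ => hG s) (fun s _ _ _ _ => mem_univ s) hhor hright
  rw [hc2] at hk
  have hCR' := h2 x x₁ y y₁ k c d hcd dx dy hx1c hy1c htfin hkc
    (by
      intro t ht hxt
      have hgne : G (1 / 2 + t * I) ≠ 0 := by
        intro h
        apply hxt
        show (G (1 / 2 + t * I)).re = 0
        rw [h]
        rfl
      rw [hk t ht hgne]
      have hn : normSq (G (1 / 2 + t * I)) = x t ^ 2 + y t ^ 2 := by
        rw [normSq_apply]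
        simp only [hx, hy]
        ring
      have hn0 : normSq (G (1 / 2 + t * I)) ≠ 0 := by
        rwa [Ne, normSq_eq_zero]
      unfold ld
      rw [← hn, div_re, add_mul, div_mul_cancel₀ _ hn0, div_mul_cancel₀ _ hn0]
      simp only [hx, hy, hx₁, hy₁, mul_re, mul_im, I_re, I_im]
      ring)
  rw [hint] at hCR'
  -- counting
  set A : Set ℂ := {ρ : ℂ | F ρ = 0 ∧ ρ.re = 1 / 2 ∧ c < ρ.im ∧ ρ.im < d} with hA
  have hAf : A.Finite := hAfin.subset (by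
    rintro z ⟨h1, h2, h3, h4⟩
    exact ⟨h1, h2, h3.le, h4.le⟩)
  have hncard : {t ∈ Ioo c d | x t = 0}.ncard = A.ncard := by
    rw [← Set.ncard_image_of_injective _ hinj]
    congr 1
    ext ρ
    constructor
    · rintro ⟨t, ⟨ht, hxt⟩, rfl⟩
      exact ⟨(hx0 t).1 hxt, (hmap t).1, (hmap t).2.symm ▸ ht.1, (hmap t).2.symm ▸ ht.2⟩
    · rintro ⟨h1, h2, h3, h4⟩
      have h5 : (1 / 2 : ℂ) + ρ.im * I = ρ := by
        apply Complex.ext
        · simp [h2]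
        · simp
      exact ⟨ρ.im, ⟨⟨h3, h4⟩, (hx0 _).2 (by rw [h5]; exact h1)⟩, h5⟩
  have hCZf : (CZ F G c d).Finite := hAf.subset (by
    rintro z ⟨h1, _, h2, h3, h4⟩
    exact ⟨h1, h2, h3, h4⟩)
  refine ⟨hCZf, ?_⟩
  -- the zeros of G
  have hfinL : {ρ : ℂ | (ρ.re = 1 / 2 ∧ c < ρ.im ∧ ρ.im < d) ∧ G ρ = 0}.Finite := by
    refine hfinG.subset ?_
    rintro z ⟨⟨h1, h2, h3⟩, h4⟩
    exact ⟨h1.ge, h1.le.trans hb.le, h2.le, h3.le, h4⟩
  have hfinI : {ρ : ℂ | (1 / 2 < ρ.re ∧ ρ.re < b ∧ c < ρ.im ∧ ρ.im < d) ∧ G ρ = 0}.Finite := by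
    refine hfinG.subset ?_
    rintro z ⟨⟨h1, h2, h3, h4⟩, h5⟩
    exact ⟨h1.le, h2.le, h3.le, h4.le, h5⟩
  set Z0 := hfinL.toFinset with hZ0def
  set Z1 := hfinI.toFinset with hZ1def
  have hZ0 : ∀ z : ℂ, z ∈ Z0 ↔ z ∈ {ρ : ℂ | ρ.re = 1 / 2 ∧ c < ρ.im ∧ ρ.im < d} ∧ G z = 0 := by
    intro z
    rw [hZ0def, Set.Finite.mem_toFinset]
    rfl
  have hZ1 : ∀ z : ℂ, z ∈ Z1 ↔
      z ∈ {ρ : ℂ | 1 / 2 < ρ.re ∧ ρ.re < b ∧ c < ρ.im ∧ ρ.im < d} ∧ G z = 0 := by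
    intro z
    rw [hZ1def, Set.Finite.mem_toFinset]
    rfl
  have hdis : Disjoint Z1 Z0 := by
    rw [Finset.disjoint_left]
    intro z h1 h0
    exact ((hZ1 z).1 h1).1.1.ne' ((hZ0 z).1 h0).1.1
  have hZ : ∀ z : ℂ, z ∈ Z1 ∪ Z0 ↔
      z ∈ {ρ : ℂ | 1 / 2 ≤ ρ.re ∧ ρ.re < b ∧ c < ρ.im ∧ ρ.im < d} ∧ G z = 0 := by
    intro z
    rw [Finset.mem_union, hZ1, hZ0]
    constructor
    · rintro (⟨⟨h1, h2, h3, h4⟩, h5⟩ | ⟨⟨h1, h3, h4⟩, h5⟩)
      · exact ⟨⟨h1.le, h2, h3, h4⟩, h5⟩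
      · exact ⟨⟨h1.ge, h1.le.trans_lt hb, h3, h4⟩, h5⟩
    · rintro ⟨⟨h1, h2, h3, h4⟩, h5⟩
      rcases eq_or_lt_of_le h1 with h6 | h6
      · exact Or.inr ⟨⟨h6.symm, h3, h4⟩, h5⟩
      · exact Or.inl ⟨⟨h6, h2, h3, h4⟩, h5⟩
  have hzc : zc G {ρ : ℂ | 1 / 2 ≤ ρ.re ∧ ρ.re < b ∧ c < ρ.im ∧ ρ.im < d} =
      ∑ ρ ∈ Z1, (analyticOrderNatAt G ρ : ℝ) + ∑ ρ ∈ Z0, (analyticOrderNatAt G ρ : ℝ) := by
    rw [zc_eq (Z1 ∪ Z0) hZ, Finset.sum_union hdis]
  rw [zc_eq Z0 hZ0, zc_eq Z1 hZ1, hncard] at hCR'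
  rw [hzc]
  -- orders
  have hb0 : G (b + c * I) ≠ 0 := hright c ⟨le_refl _, hcd.le⟩
  have hord : (Z0.card : ℝ) ≤ ∑ ρ ∈ Z0, (analyticOrderNatAt G ρ : ℝ) := by
    rw [Finset.cast_card]
    apply Finset.sum_le_sum
    intro z hz
    have h1 : analyticOrderAt G z ≠ ⊤ :=
      order_ne_top isPreconnected_univ hGU (mem_univ _) hb0 (mem_univ z)
    have h2 : analyticOrderAt G z ≠ 0 := by
      rw [(hGU z (mem_univ z)).analyticOrderAt_ne_zero]
      exact ((hZ0 z).1 hz).2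
    have h3 : analyticOrderNatAt G z ≠ 0 := by
      intro h4
      rw [← Nat.cast_analyticOrderNatAt h1, h4] at h2
      exact h2 rfl
    exact_mod_cast Nat.one_le_iff_ne_zero.2 h3
  have hAle : A.ncard ≤ (CZ F G c d).ncard + Z0.card := by
    have h1 : A ⊆ CZ F G c d ∪ (Z0 : Set ℂ) := by
      rintro z ⟨h1, h2, h3, h4⟩
      by_cases h5 : G z = 0
      · right
        rw [Finset.mem_coe, hZ0]
        exact ⟨⟨h2, h3, h4⟩, h5⟩
      · left
        exact ⟨h1, h5, h2, h3, h4⟩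
    have h2 := Set.ncard_le_ncard h1 (hCZf.union Z0.finite_toSet)
    have h3 := Set.ncard_union_le (CZ F G c d) (Z0 : Set ℂ)
    rw [Set.ncard_coe_finset] at h3
    exact h2.trans h3
  have hAle' : (A.ncard : ℝ) ≤ (CZ F G c d).ncard + Z0.card := by exact_mod_cast hAle
  set S0 := ∑ ρ ∈ Z0, (analyticOrderNatAt G ρ : ℝ)
  set S1 := ∑ ρ ∈ Z1, (analyticOrderNatAt G ρ : ℝ)
  have hpi := Real.pi_pos
  have hfin : rp G (1 / 2) b c d ≤ Real.pi * ((A.ncard : ℝ) + 1 + 2 * S1 + S0) := by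
    linarith
  have h9 : 1 / Real.pi * rp G (1 / 2) b c d ≤ (A.ncard : ℝ) + 1 + 2 * S1 + S0 := by
    rw [one_div, inv_mul_le_iff₀ hpi]
    exact hfin
  linarith

end Pool.Agent.H14.CRG
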