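import Pool.Agent.H31.CRG.TR
import Pool.Agent.H49.CV.CX
import Pool.Agent.H81.CV.GL
import Pool.Agent.H86.CV.DV
import Pool.Agent.H86.CV.GU
import Pool.Agent.H27.CV.CM

/-!
# Board crg_modules, row QFB: the form with a relation is small
-/

set_option autoImplicit false

namespace Pool.Agent.H14.CRG

open NumberField NumberField.InfinitePlace Complex Filter Topology MeasureTheory
open Pool.Agent.H28.RC Pool.Agent.H25.HK Pool.Agent.H37.CV Pool.Agent.H65.CRZ Pool.Agent.H65.CRG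
open Pool.Agent.H31.CRG
open Pool.Agent.H27.CV (fS_pos nS_pos mem_DS DS_down log_nS sum_mem_le)

section Comb

variable {α : Type} {N : α → ℝ}

theorem nS_one (hN : ∀ P, 2 ≤ N P) (S : Finset α) : 1 ≤ nS N S := by
  classical
  unfold nS
  induction S using Finset.induction_on with
  | empty => simp
  | insert P S hP ih =>
    rw [Finset.prod_insert hP]
    nlinarith [hN P]

theorem log_mem_le (hN : ∀ P, 2 ≤ N P) {D : Finset α} {P : α} (hP : P ∈ D) :
    Real.log (N P) ≤ Real.log (nS N D) := by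
  rw [log_nS hN]
  exact Finset.single_le_sum (f := fun P => Real.log (N P))
    (fun Q _ => Real.log_nonneg (by linarith [hN Q])) hP

theorem hw_bd (hN : ∀ P, 2 ≤ N P) {D : Finset α} {w : ℂ} {c : ℝ}
    (h : ‖w‖ * Real.log (nS N D) ≤ c) : ‖hw N w D‖ ≤ Real.exp (c * Real.exp c) := by
  have hfac : ∀ P ∈ D, ‖(((N P : ℝ) : ℂ) - ((N P : ℝ) : ℂ) ^ (-w)) / ((N P - 1 : ℝ) : ℂ)‖ ≤
      Real.exp (‖w‖ * Real.log (N P) * Real.exp c) := by
    intro P hP
    have h2 := hN P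
    have hlog : 0 ≤ Real.log (N P) := Real.log_nonneg (by linarith)
    have hP0 : ((N P : ℝ) : ℂ) ≠ 0 := Complex.ofReal_ne_zero.2 (by linarith)
    have hP1 : ((N P - 1 : ℝ) : ℂ) ≠ 0 := Complex.ofReal_ne_zero.2 (by linarith)
    have e1 : (((N P : ℝ) : ℂ) - ((N P : ℝ) : ℂ) ^ (-w)) / ((N P - 1 : ℝ) : ℂ) =
        1 + (1 - ((N P : ℝ) : ℂ) ^ (-w)) / ((N P - 1 : ℝ) : ℂ) := by
      rw [div_eq_iff hP1, add_mul, div_mul_cancel₀ _ hP1]
      push_cast
      ring
    have e2 : ((N P : ℝ) : ℂ) ^ (-w) = Complex.exp (-(w * (Real.log (N P) : ℝ))) := by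
      rw [Complex.cpow_def_of_ne_zero hP0, ← Complex.ofReal_log (by linarith)]
      congr 1
      ring
    have e3 : ‖1 - ((N P : ℝ) : ℂ) ^ (-w)‖ ≤ ‖w‖ * Real.log (N P) * Real.exp c := by
      rw [e2, norm_sub_rev]
      have h3 := Complex.norm_exp_sub_sum_le_norm_mul_exp (-(w * (Real.log (N P) : ℝ))) 1
      simp only [Finset.range_one, Finset.sum_singleton, pow_zero, Nat.factorial_zero,
        Nat.cast_one, div_one, pow_one] at h3
      have h4 : ‖-(w * ((Real.log (N P) : ℝ) : ℂ))‖ = ‖w‖ * Real.log (N P) := by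
        rw [norm_neg, norm_mul, Complex.norm_real, Real.norm_eq_abs, abs_of_nonneg hlog]
      rw [h4] at h3
      refine h3.trans (mul_le_mul_of_nonneg_left (Real.exp_le_exp.2 ?_) (by positivity))
      exact (mul_le_mul_of_nonneg_left (log_mem_le hN hP) (norm_nonneg w)).trans h
    rw [e1]
    have e4 : ‖(1 - ((N P : ℝ) : ℂ) ^ (-w)) / ((N P - 1 : ℝ) : ℂ)‖ ≤
        ‖w‖ * Real.log (N P) * Real.exp c := by
      rw [norm_div, Complex.norm_real, Real.norm_eq_abs, abs_of_nonneg (by linarith)]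
      exact (div_le_self (norm_nonneg _) (by linarith)).trans e3
    refine (norm_add_le _ _).trans ?_
    rw [norm_one]
    have := Real.add_one_le_exp (‖w‖ * Real.log (N P) * Real.exp c)
    linarith
  unfold hw
  rw [norm_prod]
  refine (Finset.prod_le_prod (fun P _ => norm_nonneg _) hfac).trans ?_
  rw [← Real.exp_sum, ← Finset.sum_mul, ← Finset.mul_sum, ← log_nS hN]
  exact Real.exp_le_exp.2 (mul_le_mul_of_nonneg_right h (Real.exp_pos c).le)

open scoped Classical in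
theorem sum_ell (hN : ∀ P, 2 ≤ N P) (A : Finset α) (M : ℝ) :
    ∑ D ∈ DS N A M, (fS N D)⁻¹ * ∑ P ∈ D, Real.log (N P) / (N P - 1) ≤
      (∑ P ∈ A, Real.log (N P) / (N P - 1) ^ 2) * GS N A M := by
  have h1 : ∀ D ∈ DS N A M, (fS N D)⁻¹ * ∑ P ∈ D, Real.log (N P) / (N P - 1) =
      ∑ P ∈ A, if P ∈ D then Real.log (N P) / (N P - 1) * (fS N D)⁻¹ else 0 := by
    intro D hD
    rw [← Finset.sum_filter, Finset.filter_mem_eq_inter,
      Finset.inter_eq_right.2 (mem_DS.1 hD).1, Finset.mul_sum]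
    exact Finset.sum_congr rfl fun P _ => mul_comm _ _
  rw [Finset.sum_congr rfl h1, Finset.sum_comm, Finset.sum_mul]
  refine Finset.sum_le_sum fun P _ => ?_
  rw [← Finset.sum_filter, ← Finset.mul_sum]
  have h2 : 0 < N P - 1 := by linarith [hN P]
  have h3 : 0 ≤ Real.log (N P) := Real.log_nonneg (by linarith)
  refine (mul_le_mul_of_nonneg_left (sum_mem_le hN) (by positivity)).trans (le_of_eq ?_)
  field_simp

open scoped Classical in
theorem sum_big (hN : ∀ P, 2 ≤ N P) (A : Finset α) (M x : ℝ) (hx : 1 ≤ x) :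
    ∑ D ∈ DS N A M, (fS N D)⁻¹ * (if nS N D * x ≤ M then 0 else 1) =
      GS N A M - GS N A (M / x) := by
  have hx0 : 0 < x := by linarith
  have h1 : DS N A (M / x) = (DS N A M).filter fun D => nS N D * x ≤ M := by
    ext D
    rw [Finset.mem_filter, mem_DS, mem_DS, le_div_iff₀ hx0]
    constructor
    · rintro ⟨a, b⟩
      have := nS_pos hN D
      exact ⟨⟨a, by nlinarith⟩, b⟩
    · rintro ⟨⟨a, -⟩, b⟩
      exact ⟨a, b⟩
  have h2 : GS N A (M / x) = ∑ D ∈ DS N A M, if nS N D * x ≤ M then (fS N D)⁻¹ else 0 := by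
    unfold GS
    rw [h1, Finset.sum_filter]
  rw [h2]
  unfold GS
  rw [← Finset.sum_sub_distrib]
  refine Finset.sum_congr rfl fun D _ => ?_
  split_ifs <;> ring

end Comb

theorem G_low (K : Type) [Field K] [NumberField K] :
    ∃ c : ℝ, 0 < c ∧ ∀ M : ℝ, 2 ≤ M → c * Real.log M ≤ GS np (PM K M) M := by
  obtain ⟨M₀, hM₀, h⟩ := Pool.Agent.H81.CV.pf_GL K (1 / 2) (by norm_num)
  have hrho : 0 < rho K := dedekindZeta_residue_pos K
  have h2 : 2 ≤ max M₀ 2 := le_max_right _ _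
  have hl : 0 < Real.log (max M₀ 2) := Real.log_pos (by linarith)
  refine ⟨min (rho K / 2) (1 / Real.log (max M₀ 2)), lt_min (by linarith) (by positivity), ?_⟩
  intro M hM
  have hlM : 0 ≤ Real.log M := Real.log_nonneg (by linarith)
  rcases le_or_gt M₀ M with h3 | h3
  · refine le_trans ?_ (h M h3)
    have := mul_le_mul_of_nonneg_right (min_le_left (rho K / 2) (1 / Real.log (max M₀ 2))) hlM
    linarith
  · have h4 : 1 ≤ GS np (PM K M) M := (Pool.Agent.H49.CV.pf_CX (PrI K) np (PM K M) M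
      Pool.Agent.H81.CV.np_two (by linarith)).2.1
    refine le_trans ?_ h4
    have h5 := mul_le_mul_of_nonneg_right (min_le_right (rho K / 2) (1 / Real.log (max M₀ 2))) hlM
    refine h5.trans ?_
    rw [one_div, inv_mul_le_iff₀ hl, mul_one]
    exact Real.log_le_log (by linarith) (h3.le.trans (le_max_left _ _))

theorem pf_QFB (h1 : Pool.Agent.H31.CRG.T_S2R) (h2 : Pool.Agent.H31.CRG.T_UB) :
    Pool.Agent.H31.CRG.T_QFB := by
  classical
  intro K _ _ C₀ hC₀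
  obtain ⟨Cu, hCu, hU⟩ := h2 K C₀ hC₀
  obtain ⟨C₁, hG1, -, hG3⟩ := Pool.Agent.H86.CV.pf_GU Pool.Agent.H86.CV.pf_DV K
  obtain ⟨c, hc, hGl⟩ := G_low K
  have hN : ∀ P : PrI K, 2 ≤ np P := Pool.Agent.H81.CV.np_two
  have hC₁ : 0 ≤ C₁ := by
    have := hG3 ∅
    simpa using this
  obtain ⟨H, hH⟩ : ∃ H : ℝ, H = Real.exp (2 * C₀ * Real.exp (2 * C₀)) := ⟨_, rfl⟩
  have hH0 : 0 < H := by rw [hH]; exact Real.exp_pos _
  refine ⟨max 1 (H * Cu ^ 2 * ((1 + C₁) / c + C₁ / c ^ 2)), le_max_left _ _, ?_⟩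
  intro M a b hM ha hb R₁ R₂ hR₁ hR₂ hd hne
  have hL : 0 < Real.log M := Real.log_pos (by linarith)
  obtain ⟨L, hLd⟩ : ∃ L, L = Real.log M := ⟨_, rfl⟩
  rw [← hLd] at hL ha hb ⊢
  have hG0 : c * L ≤ GS np (PM K M) M := by rw [hLd]; exact hGl M hM
  obtain ⟨G, hGd⟩ : ∃ G, G = GS np (PM K M) M := ⟨_, rfl⟩
  rw [← hGd] at hG0
  have hGpos : 0 < G := lt_of_lt_of_le (by positivity) hG0
  have hNR : 1 ≤ nS np R₁ := nS_one hN R₁
  have hlR : 0 ≤ Real.log (nS np R₁) := Real.log_nonneg hNR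
  obtain ⟨ℓ, hℓ⟩ : ∃ ℓ : Finset (PrI K) → ℝ, ∀ D, ℓ D = ∑ P ∈ D, Real.log (np P) / (np P - 1) :=
    ⟨_, fun _ => rfl⟩
  have hℓ0 : ∀ D, 0 ≤ ℓ D := by
    intro D
    rw [hℓ]
    refine Finset.sum_nonneg fun P _ => ?_
    have h3 := hN P
    have h4 : 0 ≤ Real.log (np P) := Real.log_nonneg (by linarith)
    have h5 : 0 < np P - 1 := by linarith
    positivity
  obtain ⟨br, hbr⟩ : ∃ br : Finset (PrI K) → ℝ, ∀ D, br D =
      (1 + Real.log (nS np R₁) + ℓ D) / L + (if nS np D * nS np R₁ ≤ M then 0 else 1) :=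
    ⟨_, fun _ => rfl⟩
  have hbr0 : ∀ D, 0 ≤ br D := by
    intro D
    rw [hbr]
    have := hℓ0 D
    split_ifs <;> positivity
  -- the bound of a term
  have hterm : ∀ D ∈ DM K M, ‖hw np (a + b) D / ((fS np D : ℝ) : ℂ) *
      (UR np (PM K M) R₁ D M a b * UR np (PM K M) R₂ D M b a)‖ ≤
      (H * Cu ^ 2 * 2 ^ (R₁.card + R₂.card)) * ((fS np D)⁻¹ * br D) := by
    intro D hD
    have hD' := mem_DS.1 hD
    have hu2 : ‖UR np (PM K M) R₂ D M b a‖ ≤ Cu * 2 ^ R₂.card :=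
      (hU M b a hM (by rw [← hLd]; exact hb) (by rw [← hLd]; exact ha) D R₂ hD hR₂).1
    have hu1 : ‖UR np (PM K M) R₁ D M a b‖ ≤ Cu * 2 ^ R₁.card * br D := by
      have h3 := hU M a b hM (by rw [← hLd]; exact ha) (by rw [← hLd]; exact hb) D R₁ hD hR₁
      rw [← hLd, ← hℓ] at h3
      have h4 : 0 ≤ Cu * 2 ^ R₁.card := by positivity
      rw [hbr]
      split_ifs with h5
      · refine (h3.2 hne h5).trans (le_of_eq ?_)
        rw [add_zero]
        ring
      · have h6 : 0 ≤ (1 + Real.log (nS np R₁) + ℓ D) / L := by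
          have := hℓ0 D
          positivity
        refine h3.1.trans ?_
        nlinarith
    have hh : ‖hw np (a + b) D‖ ≤ H := by
      rw [hH]
      apply hw_bd hN
      have h3 : ‖a + b‖ ≤ 2 * C₀ / L := by
        refine (norm_add_le _ _).trans ?_
        have : 2 * C₀ / L = C₀ / L + C₀ / L := by ring
        linarith
      have h4 : Real.log (nS np D) ≤ L := by
        rw [hLd]
        exact Real.log_le_log (nS_pos hN D) hD'.2
      have h5 : 0 ≤ Real.log (nS np D) := Real.log_nonneg (nS_one hN D)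
      calc ‖a + b‖ * Real.log (nS np D) ≤ 2 * C₀ / L * L := by gcongr
        _ = 2 * C₀ := by field_simp
    have hf := fS_pos hN D
    rw [norm_mul, norm_div, norm_mul, Complex.norm_real, Real.norm_eq_abs, abs_of_pos hf]
    calc ‖hw np (a + b) D‖ / fS np D *
          (‖UR np (PM K M) R₁ D M a b‖ * ‖UR np (PM K M) R₂ D M b a‖)
        ≤ H / fS np D * ((Cu * 2 ^ R₁.card * br D) * (Cu * 2 ^ R₂.card)) := by
          have := hbr0 D
          gcongr
      _ = _ := by rw [pow_add]; ring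
  have hsum : ∑ D ∈ DM K M, (fS np D)⁻¹ * br D ≤
      (1 + Real.log (nS np R₁)) * ((1 + C₁) / L * G + C₁) := by
    have e1 : ∑ D ∈ DM K M, (fS np D)⁻¹ * br D =
        (1 + Real.log (nS np R₁)) / L * G +
          1 / L * ∑ D ∈ DM K M, (fS np D)⁻¹ * ∑ P ∈ D, Real.log (np P) / (np P - 1) +
          ∑ D ∈ DM K M, (fS np D)⁻¹ * (if nS np D * nS np R₁ ≤ M then 0 else 1) := by
      rw [hGd]
      unfold GS
      change _ = (1 + Real.log (nS np R₁)) / L * ∑ D ∈ DM K M, (fS np D)⁻¹ + _ + _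
      rw [Finset.mul_sum, Finset.mul_sum, ← Finset.sum_add_distrib, ← Finset.sum_add_distrib]
      refine Finset.sum_congr rfl fun D _ => ?_
      rw [hbr, hℓ]
      ring
    have e2 := sum_ell hN (PM K M) M
    have e3 := sum_big hN (PM K M) M (nS np R₁) hNR
    have e4 := hG1 M (nS np R₁) (by linarith) hNR
    rw [← hGd] at e2 e3 e4
    have e5 : ∑ D ∈ DM K M, (fS np D)⁻¹ * ∑ P ∈ D, Real.log (np P) / (np P - 1) ≤ C₁ * G :=
      e2.trans (mul_le_mul_of_nonneg_right (hG3 _) hGpos.le)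
    rw [e1]
    have e6 : ∑ D ∈ DM K M, (fS np D)⁻¹ * (if nS np D * nS np R₁ ≤ M then 0 else 1) ≤
        C₁ * (1 + Real.log (nS np R₁)) := by
      refine le_trans (le_of_eq ?_) e4
      exact e3
    have e7 : 1 / L * ∑ D ∈ DM K M, (fS np D)⁻¹ * ∑ P ∈ D, Real.log (np P) / (np P - 1) ≤
        1 / L * (C₁ * G) := mul_le_mul_of_nonneg_left e5 (by positivity)
    have e8 : 1 / L * (C₁ * G) ≤ (1 + Real.log (nS np R₁)) * (C₁ / L * G) := by
      have : 0 ≤ C₁ / L * G := by positivity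
      have h9 : 1 / L * (C₁ * G) = C₁ / L * G := by ring
      rw [h9]
      nlinarith
    have e9 : (1 + Real.log (nS np R₁)) * ((1 + C₁) / L * G + C₁) =
        (1 + Real.log (nS np R₁)) / L * G + (1 + Real.log (nS np R₁)) * (C₁ / L * G) +
          C₁ * (1 + Real.log (nS np R₁)) := by ring
    rw [e9]
    linarith
  obtain ⟨F, hFs, hQ⟩ : ∃ F : Finset (Finset (PrI K)), F ⊆ DM K M ∧
      QF K M a b (a + b) R₁ R₂ = (((GS np (PM K M) M)⁻¹ ^ 2 : ℝ) : ℂ) *
        ∑ D ∈ F, hw np (a + b) D / ((fS np D : ℝ) : ℂ) *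
          (UR np (PM K M) R₁ D M a b * UR np (PM K M) R₂ D M b a) := by
    refine ⟨_, ?_, h1 (PrI K) np (PM K M) R₁ R₂ M a b hN (by linarith) hR₁ hR₂ hd⟩
    have key : ∀ (p : Finset (PrI K) → Prop) (i : DecidablePred p),
        @Finset.filter _ p i (DM K M) ⊆ DM K M := fun p i => Finset.filter_subset _ _
    exact key _ _
  rw [hQ, ← hGd, norm_mul, Complex.norm_real, Real.norm_eq_abs, abs_of_nonneg (by positivity)]
  have hfin : ‖∑ D ∈ F,
        hw np (a + b) D / ((fS np D : ℝ) : ℂ) *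
          (UR np (PM K M) R₁ D M a b * UR np (PM K M) R₂ D M b a)‖ ≤
      (H * Cu ^ 2 * 2 ^ (R₁.card + R₂.card)) *
        ((1 + Real.log (nS np R₁)) * ((1 + C₁) / L * G + C₁)) := by
    calc _ ≤ ∑ D ∈ F,
          ‖hw np (a + b) D / ((fS np D : ℝ) : ℂ) *
            (UR np (PM K M) R₁ D M a b * UR np (PM K M) R₂ D M b a)‖ := norm_sum_le _ _
      _ ≤ ∑ D ∈ F,
          (H * Cu ^ 2 * 2 ^ (R₁.card + R₂.card)) * ((fS np D)⁻¹ * br D) :=
          Finset.sum_le_sum fun D hD => hterm D (hFs hD)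
      _ ≤ ∑ D ∈ DM K M, (H * Cu ^ 2 * 2 ^ (R₁.card + R₂.card)) * ((fS np D)⁻¹ * br D) := by
          refine Finset.sum_le_sum_of_subset_of_nonneg hFs ?_
          intro D _ _
          have h3 := hbr0 D
          have h4 := fS_pos hN D
          positivity
      _ ≤ _ := by
          rw [← Finset.mul_sum]
          exact mul_le_mul_of_nonneg_left hsum (by positivity)
  have hinv : G⁻¹ ≤ 1 / (c * L) := by
    rw [inv_eq_one_div]
    exact one_div_le_one_div_of_le (by positivity) hG0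
  have hmain : G⁻¹ ^ 2 * ((1 + C₁) / L * G + C₁) ≤ ((1 + C₁) / c + C₁ / c ^ 2) / L ^ 2 := by
    have e1 : G⁻¹ ^ 2 * ((1 + C₁) / L * G + C₁) = (1 + C₁) / L * G⁻¹ + C₁ * G⁻¹ ^ 2 := by
      field_simp
    have e2 : ((1 + C₁) / c + C₁ / c ^ 2) / L ^ 2 =
        (1 + C₁) / L * (1 / (c * L)) + C₁ * (1 / (c * L)) ^ 2 := by
      field_simp
    rw [e1, e2]
    have h3 : 0 ≤ (1 + C₁) / L := by positivity
    have h4 : 0 ≤ G⁻¹ := by positivity
    gcongr
  calc G⁻¹ ^ 2 * ‖∑ D ∈ F,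
        hw np (a + b) D / ((fS np D : ℝ) : ℂ) *
          (UR np (PM K M) R₁ D M a b * UR np (PM K M) R₂ D M b a)‖
      ≤ G⁻¹ ^ 2 * ((H * Cu ^ 2 * 2 ^ (R₁.card + R₂.card)) *
        ((1 + Real.log (nS np R₁)) * ((1 + C₁) / L * G + C₁))) :=
        mul_le_mul_of_nonneg_left hfin (by positivity)
    _ = (H * Cu ^ 2 * 2 ^ (R₁.card + R₂.card)) * (1 + Real.log (nS np R₁)) *
        (G⁻¹ ^ 2 * ((1 + C₁) / L * G + C₁)) := by ring
    _ ≤ (H * Cu ^ 2 * 2 ^ (R₁.card + R₂.card)) * (1 + Real.log (nS np R₁)) *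
        (((1 + C₁) / c + C₁ / c ^ 2) / L ^ 2) :=
        mul_le_mul_of_nonneg_left hmain (by positivity)
    _ = (H * Cu ^ 2 * ((1 + C₁) / c + C₁ / c ^ 2)) * 2 ^ (R₁.card + R₂.card) *
        (1 + Real.log (nS np R₁)) / L ^ 2 := by ring
    _ ≤ max 1 (H * Cu ^ 2 * ((1 + C₁) / c + C₁ / c ^ 2)) * 2 ^ (R₁.card + R₂.card) *
        (1 + Real.log (nS np R₁)) / L ^ 2 := by
        gcongr
        exact le_max_right _ _

end Pool.Agent.H14.CRG
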