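import Pool.Agent.H31.CRG.TR
import Pool.Agent.H60.CRZ.S2

/-!
# Board crg_modules, row S2R: the form with a relation
-/

set_option autoImplicit false

namespace Pool.Agent.H14.CRG

open NumberField NumberField.InfinitePlace Complex Filter Topology MeasureTheory
open Pool.Agent.H28.RC Pool.Agent.H25.HK Pool.Agent.H37.CV Pool.Agent.H65.CRZ Pool.Agent.H65.CRG
open Pool.Agent.H31.CRG
open Pool.Agent.H60.CRZ (cpow_nS)

theorem pf_S2R (h1 : Pool.Agent.H31.CRG.T_S1R) : Pool.Agent.H31.CRG.T_S2R := by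
  classical
  intro α N A R₁ R₂ M a b hN hM hR₁ hR₂ _
  have hpos : ∀ P, 0 < N P := fun P => lt_of_lt_of_le two_pos (hN P)
  have hnS : ∀ S, 0 < nS N S := fun S => Pool.Agent.H27.CV.nS_pos hN S
  obtain ⟨F, hF⟩ : ∃ F : Finset (Finset α),
    F = (DS N A M).filter (fun D => Disjoint D (R₁ ∪ R₂)) := ⟨_, rfl⟩
  have hFe : (DS N A M).filter (fun D => Disjoint D (R₁ ∪ R₂)) = F := hF.symm
  rw [hFe]
  -- the kernel
  let k : Finset α → ℂ := fun D => ∏ P ∈ D, (((N P : ℝ) : ℂ) ^ (1 + (a + b)) - 1)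
  have hk : ∀ S : Finset α, ((nS N S : ℝ) : ℂ) ^ (1 + (a + b)) = ∑ D ∈ S.powerset, k D := by
    intro S
    rw [cpow_nS hpos, ← Finset.prod_one_add]
    exact Finset.prod_congr rfl fun P _ => by ring
  have hk2 : ∀ S ∈ DS N A M, ∀ T, ((nS N ((S ∩ T) \ (R₁ ∪ R₂)) : ℝ) : ℂ) ^ (1 + (a + b)) =
      ∑ D ∈ F, if D ⊆ S ∧ D ⊆ T then k D else 0 := by
    intro S hS T
    rw [hk, ← Finset.sum_filter]
    refine Finset.sum_congr ?_ fun _ _ => rfl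
    ext D
    rw [hF, Finset.mem_powerset, Finset.mem_filter, Finset.mem_filter, Finset.subset_sdiff,
      Finset.subset_inter_iff]
    exact ⟨fun h => ⟨⟨Pool.Agent.H27.CV.DS_down hN hS h.1.1, h.2⟩, h.1⟩, fun h => ⟨h.2, h.1.2⟩⟩
  have hgg : ∀ S T : Finset α, ((gg N R₁ R₂ S T : ℝ) : ℂ) ^ (1 + (a + b)) =
      ((nS N (S ∩ R₁) : ℝ) : ℂ) ^ (1 + (a + b)) * ((nS N (T ∩ R₂) : ℝ) : ℂ) ^ (1 + (a + b)) *
        ((nS N ((S ∩ T) \ (R₁ ∪ R₂)) : ℝ) : ℂ) ^ (1 + (a + b)) := by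
    intro S T
    have e : gg N R₁ R₂ S T = nS N (S ∩ R₁) * nS N (T ∩ R₂) * nS N ((S ∩ T) \ (R₁ ∪ R₂)) := by
      unfold gg
      congr
    rw [e, Complex.ofReal_mul, Complex.mul_cpow_ofReal_nonneg (mul_pos (hnS _) (hnS _)).le
      (hnS _).le, Complex.ofReal_mul, Complex.mul_cpow_ofReal_nonneg (hnS _).le (hnS _).le]
  have e1 : ∑ S ∈ DS N A M, ∑ T ∈ DS N A M, ((xS N A M S * xS N A M T : ℝ) : ℂ) *
      (((nS N S : ℝ) : ℂ) ^ (-(1 + b)) * ((nS N T : ℝ) : ℂ) ^ (-(1 + a)) *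
        ((gg N R₁ R₂ S T : ℝ) : ℂ) ^ (1 + (a + b))) =
      ∑ D ∈ F, ∑ S ∈ DS N A M, ∑ T ∈ DS N A M, k D *
        ((if D ⊆ S then (xS N A M S : ℂ) * (((nS N S : ℝ) : ℂ) ^ (-(1 + b)) *
            ((nS N (S ∩ R₁) : ℝ) : ℂ) ^ (1 + (a + b))) else 0) *
          (if D ⊆ T then (xS N A M T : ℂ) * (((nS N T : ℝ) : ℂ) ^ (-(1 + a)) *
            ((nS N (T ∩ R₂) : ℝ) : ℂ) ^ (1 + (b + a))) else 0)) := by
    refine Eq.trans ?_ Finset.sum_comm
    refine Finset.sum_congr rfl fun S hS => ?_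
    refine Eq.trans ?_ Finset.sum_comm
    refine Finset.sum_congr rfl fun T _ => ?_
    rw [hgg, hk2 S hS T, Finset.mul_sum, Finset.mul_sum, Finset.mul_sum]
    refine Finset.sum_congr rfl fun D _ => ?_
    push_cast
    rw [add_comm b a]
    by_cases hDS : D ⊆ S
    · by_cases hDT : D ⊆ T
      · rw [if_pos ⟨hDS, hDT⟩, if_pos hDS, if_pos hDT]
        ring
      · rw [if_neg (fun h => hDT h.2), if_neg hDT]
        ring
    · rw [if_neg (fun h => hDS h.1), if_neg hDS]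
      ring
  rw [e1, Finset.mul_sum]
  refine Finset.sum_congr rfl fun D hD' => ?_
  rw [hF, Finset.mem_filter, Finset.disjoint_union_right] at hD'
  obtain ⟨hD, hD1, hD2⟩ := hD'
  have e2 : ∑ S ∈ DS N A M, ∑ T ∈ DS N A M, k D *
        ((if D ⊆ S then (xS N A M S : ℂ) * (((nS N S : ℝ) : ℂ) ^ (-(1 + b)) *
            ((nS N (S ∩ R₁) : ℝ) : ℂ) ^ (1 + (a + b))) else 0) *
          (if D ⊆ T then (xS N A M T : ℂ) * (((nS N T : ℝ) : ℂ) ^ (-(1 + a)) *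
            ((nS N (T ∩ R₂) : ℝ) : ℂ) ^ (1 + (b + a))) else 0)) =
      k D * ((∑ S ∈ (DS N A M).filter (fun S => D ⊆ S), (xS N A M S : ℂ) *
          (((nS N S : ℝ) : ℂ) ^ (-(1 + b)) * ((nS N (S ∩ R₁) : ℝ) : ℂ) ^ (1 + (a + b)))) *
        ∑ T ∈ (DS N A M).filter (fun T => D ⊆ T), (xS N A M T : ℂ) *
          (((nS N T : ℝ) : ℂ) ^ (-(1 + a)) * ((nS N (T ∩ R₂) : ℝ) : ℂ) ^ (1 + (b + a)))) := by
    rw [Finset.sum_filter, Finset.sum_filter, Finset.sum_mul_sum, Finset.mul_sum]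
    refine Finset.sum_congr rfl fun S _ => ?_
    rw [Finset.mul_sum]
  have s1 := h1 α N A D R₁ M a b hN hM hD hR₁ hD1
  have s2 := h1 α N A D R₂ M b a hN hM hD hR₂ hD2
  rw [e2]
  have s1' : (∑ S ∈ (DS N A M).filter (fun S => D ⊆ S), (xS N A M S : ℂ) *
      (((nS N S : ℝ) : ℂ) ^ (-(1 + b)) * ((nS N (S ∩ R₁) : ℝ) : ℂ) ^ (1 + (a + b)))) =
      (-1) ^ D.card * ((nS N D : ℝ) : ℂ) ^ (-b) / ((fS N D * GS N A M : ℝ) : ℂ) *
        UR N A R₁ D M a b := s1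
  have s2' : (∑ T ∈ (DS N A M).filter (fun T => D ⊆ T), (xS N A M T : ℂ) *
      (((nS N T : ℝ) : ℂ) ^ (-(1 + a)) * ((nS N (T ∩ R₂) : ℝ) : ℂ) ^ (1 + (b + a)))) =
      (-1) ^ D.card * ((nS N D : ℝ) : ℂ) ^ (-a) / ((fS N D * GS N A M : ℝ) : ℂ) *
        UR N A R₂ D M b a := s2
  rw [s1', s2']
  -- the product
  have hf : ((fS N D : ℝ) : ℂ) = ∏ P ∈ D, ((N P - 1 : ℝ) : ℂ) := by
    unfold fS
    rw [Complex.ofReal_prod]
  have hf0 : ((fS N D : ℝ) : ℂ) ≠ 0 :=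
    Complex.ofReal_ne_zero.2 (Pool.Agent.H27.CV.fS_pos hN D).ne'
  have e3 : k D * (((nS N D : ℝ) : ℂ) ^ (-a) * ((nS N D : ℝ) : ℂ) ^ (-b)) =
      hw N (a + b) D * ((fS N D : ℝ) : ℂ) := by
    rw [cpow_nS hpos, cpow_nS hpos, hf]
    unfold hw
    rw [← Finset.prod_mul_distrib, ← Finset.prod_mul_distrib, ← Finset.prod_mul_distrib]
    refine Finset.prod_congr rfl fun P _ => ?_
    have hP0 : ((N P : ℝ) : ℂ) ≠ 0 := Complex.ofReal_ne_zero.2 (hpos P).ne'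
    have hP1 : ((N P - 1 : ℝ) : ℂ) ≠ 0 := Complex.ofReal_ne_zero.2 (by linarith [hN P])
    rw [div_mul_cancel₀ _ hP1, ← Complex.cpow_add _ _ hP0, sub_mul, one_mul,
      ← Complex.cpow_add _ _ hP0]
    have h5 : (1 + (a + b) + (-a + -b) : ℂ) = 1 := by ring
    have h6 : (-a + -b : ℂ) = -(a + b) := by ring
    rw [h5, h6, Complex.cpow_one]
  have hcard : ((-1 : ℂ) ^ D.card) * (-1) ^ D.card = 1 := by
    rw [← mul_pow]
    norm_num
  by_cases hG : GS N A M = 0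
  · rw [hG]
    simp
  have hG0 : ((GS N A M : ℝ) : ℂ) ≠ 0 := Complex.ofReal_ne_zero.2 hG
  push_cast
  generalize ((nS N D : ℝ) : ℂ) ^ (-a) = u at *
  generalize ((nS N D : ℝ) : ℂ) ^ (-b) = v at *
  generalize UR N A R₁ D M a b = ea at *
  generalize UR N A R₂ D M b a = eb at *
  generalize ((-1 : ℂ) ^ D.card) = c at *
  generalize ((fS N D : ℝ) : ℂ) = f at *
  generalize ((GS N A M : ℝ) : ℂ) = g at *
  generalize hw N (a + b) D = h at *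
  have e4 : k D * (c * v / (f * g) * ea * (c * u / (f * g) * eb)) =
      (k D * (u * v)) * (c * c) * (ea * eb) / (f * g) ^ 2 := by
    field_simp
  rw [e4, e3, hcard]
  field_simp

end Pool.Agent.H14.CRG
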